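import Pool.Agent.Lib.MP_6bb66b_gt.DiamondTree

set_option autoImplicit false

namespace Pool.Agent.Results.MP_6bb66b_gt.DiamondCounterexample

open Pool.Agent.Lib.MP_6bb66b_gt
open Set Order Cardinal

lemma mk_omega1 : #Omega1 = ℵ₁ := by
  rw [Cardinal.mk_toType, Ordinal.card_omega]

lemma countable_Iio (a : Omega1) : (Set.Iio a).Countable := by
  rw [← Cardinal.le_aleph0_iff_set_countable, ← Order.lt_succ_iff, Cardinal.succ_aleph0,
    ← mk_omega1]
  apply Cardinal.mk_Iio_lt
  rw [mk_omega1, Ordinal.type_toType, Cardinal.ord_aleph]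

lemma uncountable_omega1 : Uncountable Omega1 := by
  rw [← Cardinal.aleph0_lt_mk_iff, mk_omega1]
  exact Cardinal.aleph0_lt_aleph_one

lemma bddAbove_of_countable (s : Set Omega1) (hs : s.Countable) : BddAbove s := by
  by_contra hcon
  have h1 : (Set.univ : Set Omega1) ⊆ ⋃ y ∈ s, Set.Iio y := by
    intro x _
    have h2 : ∃ y ∈ s, x < y := by
      by_contra h3
      push Not at h3
      exact hcon ⟨x, h3⟩
    obtain ⟨y, hy, hxy⟩ := h2
    exact Set.mem_biUnion hy hxy
  have h2 : (Set.univ : Set Omega1).Countable :=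
    (hs.biUnion fun y _ => countable_Iio y).mono h1
  have := uncountable_omega1
  exact Set.not_countable_univ h2

lemma exists_injection : ∃ e : Omega1 × List ℕ → Omega1, Function.Injective e := by
  have h : #(Omega1 × List ℕ) ≤ #Omega1 := by
    rw [Cardinal.mk_prod, Cardinal.lift_id, Cardinal.lift_id, Cardinal.mk_denumerable (List ℕ),
      mk_omega1]
    exact (Cardinal.mul_aleph0_eq (Cardinal.aleph0_le_aleph 1)).le
  obtain ⟨e⟩ := h
  exact ⟨e, e.injective⟩

/-- **Diamond gives a counterexample.** -/
theorem result (h : Diamond) :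
    ∃ (X : Type) (_ : TopologicalSpace X), Uncountable X ∧ T2Space X ∧ SemiRegular X ∧
      OpenWhyburn X ∧ FrechetUrysohnSpace (Qp X) := by
  classical
  have hunc := uncountable_omega1
  have hne : Nonempty Omega1 := inferInstance
  have hnm : NoMaxOrder Omega1 := by
    refine ⟨fun a => ?_⟩
    by_contra hcon
    push Not at hcon
    have h1 : (Set.univ : Set Omega1) ⊆ insert a (Set.Iio a) := by
      intro x _
      rcases (hcon x).eq_or_lt with h2 | h2
      · exact Or.inl h2
      · exact Or.inr h2
    exact Set.not_countable_univ (((countable_Iio a).insert a).mono h1)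
  let _ : SuccOrder Omega1 := SuccOrder.ofLinearWellFoundedLT Omega1
  obtain ⟨S, hS⟩ := h
  obtain ⟨e, he⟩ := exists_injection
  obtain ⟨T, hT⟩ := exists_free bddAbove_of_countable countable_Iio e he S hS
  refine ⟨T.Node, inferInstance, ?_, inferInstance, T.semiRegular, T.openWhyburn,
    T.frechetUrysohn bddAbove_of_countable countable_Iio hT⟩
  have hinj : Function.Injective (fun a : Omega1 => (((a, 0) : Omega1 × ℕ) : T.Node)) := by
    intro a b hab
    exact congrArg Prod.fst hab
  exact hinj.uncountable

end Pool.Agent.Results.MP_6bb66b_gt.DiamondCounterexample
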